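import Pool.Agent.H62.Td2

set_option autoImplicit false

namespace Pool.Agent.Results.MP_f36693_lc.NoDeg

open FirstOrder FirstOrder.Language Pool.Agent.H62.Td Pool.Agent.H37

theorem result : ∃ D : ℕ → Bool, TuringReducible (ora D) (ora zw) ∧
    ∀ (L : FirstOrder.Language.{0, 0}) (S : Sig L) (T : L.Theory), T.IsMaximal →
      ∀ (M : Type) [L.Structure M], M ⊨ T → CompStr S M →
        ¬TuringEquivalent (ora (gn S T)) (ora D) := by
  obtain ⟨V1, a1, a2⟩ := wf
  obtain ⟨V2, b1, b2⟩ := tru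
  obtain ⟨D, d1, d2⟩ := diag (V := fun z => V1 (z.1.unpair.1.unpair, z.2) &&
    !V2 (z.1.unpair.2.unpair, z.2)) (by fun_prop)
  refine ⟨D, tr_iff.2 (ci_bit.2 d1), fun L S T hT M _ hM hc h => ?_⟩
  obtain ⟨e1, c1⟩ := a2 L S
  obtain ⟨e2, c2⟩ := b2 L S M hc
  have := d2 (Nat.pair (Nat.pair e1.1 e1.2) (Nat.pair e2.1 e2.2))
  simp only [Nat.unpair_pair, Prod.mk.eta] at this
  have e : gn S T = fun n => V1 (e1, n) && !V2 (e2, n) := funext fun n => Bool.eq_iff_iff.2 (by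
    simp only [gn, decide_eq_true_eq, Bool.and_eq_true, c1, Bool.not_eq_true', ← Bool.not_eq_true]
    constructor
    · rintro ⟨φ, k, rfl⟩
      exact ⟨⟨φ, rfl⟩, by rw [c2, not_not]; exact Theory.realize_sentence_of_mem T k⟩
    · rintro ⟨⟨φ, rfl⟩, k⟩
      rw [c2, not_not] at k
      exact ⟨φ, (hT.mem_or_not_mem φ).resolve_right fun l =>
        (Sentence.realize_not M).1 (Theory.realize_sentence_of_mem T l) k, rfl⟩)
  rw [e] at h
  exact this (tr_iff.1 h.1) (tr_iff.1 h.2)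

end Pool.Agent.Results.MP_f36693_lc.NoDeg
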